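import Mathlib
import Pool.Agent.H152Z.Stab.Defs
import Pool.Agent.H152Z.Stab.Final

set_option autoImplicit false

namespace Pool.Agent.Results.MP_6fff33_lc.AllThreeUndecidable

open Pool.Agent.H152Z.Stab

/-- There are a dimension `n` and a degree `d₀` such that for every degree bound `d ≥ d₀` no
algorithm decides, for polynomial vector fields on `ℝ^n` with rational coefficients, degree at most
`d` and no constant term, whether the origin is Lyapunov stable; none decides whether it is locally
asymptotically stable; and none decides whether it is globally asymptotically stable. -/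
theorem result : ∃ n d₀ : ℕ, ∀ d : ℕ, d₀ ≤ d →
    ¬ DecidableIn n d LyapunovStable ∧
    ¬ DecidableIn n d LocallyAsymptoticallyStable ∧
    ¬ DecidableIn n d GloballyAsymptoticallyStable := by
  obtain ⟨n, d₀, h⟩ := undecidable
  exact ⟨n, d₀, fun d hd => ⟨h d hd _ (fun _ hf => hf.1) (fun _ hf => hf),
    h d hd _ (fun _ hf => hf.loc) (fun _ hf => hf.1),
    h d hd _ (fun _ hf => hf) (fun _ hf => hf.1)⟩⟩

end Pool.Agent.Results.MP_6fff33_lc.AllThreeUndecidable
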